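import Pool.Agent.W_be22fd_h33.Tent
import Pool.Agent.W_be22fd_h77.FamDef

/-!
# The tent as a measurable family of tests, and the average of its potential
-/

open Real MeasureTheory Set

namespace Pool.Agent.W_be22fd_h33

open Pool.Agent.Be22.Ker

/-- phase and branch -/
noncomputable def tP : Measure (ℝ × Bool) :=
  (2⁻¹ : ENNReal) • (arc.map (fun θ => (θ, true)) + arc.map (fun θ => (θ, false)))

/-- the family -/
noncomputable def tZ (B p : ℝ) (ω : ℝ × (ℝ × Bool)) : ℂ :=
  troot B p ω.1 ω.2.2 (circleMap 0 1 ω.2.1)

lemma meas_pair (b : Bool) : Measurable (fun θ : ℝ => (θ, b)) := measurable_prodMk_right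

lemma tP_apply {S : Set (ℝ × Bool)} (hS : MeasurableSet S) :
    tP S = (2⁻¹ : ENNReal) * (arc {θ | (θ, true) ∈ S} + arc {θ | (θ, false) ∈ S}) := by
  rw [tP, Measure.smul_apply, Measure.add_apply, Measure.map_apply (meas_pair _) hS,
    Measure.map_apply (meas_pair _) hS]
  rfl

lemma tP_integrable {f : ℝ × Bool → ℝ} (hf : Measurable f)
    (h1 : Integrable (fun θ => f (θ, true)) arc) (h2 : Integrable (fun θ => f (θ, false)) arc) :
    Integrable f tP := by
  have e1 : Integrable f (arc.map (fun θ => (θ, true))) :=
    (integrable_map_measure hf.aestronglyMeasurable (meas_pair _).aemeasurable).2 h1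
  have e2 : Integrable f (arc.map (fun θ => (θ, false))) :=
    (integrable_map_measure hf.aestronglyMeasurable (meas_pair _).aemeasurable).2 h2
  exact (e1.add_measure e2).smul_measure (by simp)

lemma tP_integral {f : ℝ × Bool → ℝ} (hf : Measurable f)
    (h1 : Integrable (fun θ => f (θ, true)) arc) (h2 : Integrable (fun θ => f (θ, false)) arc) :
    ∫ ω, f ω ∂tP = (1 / 2) * ((∫ θ, f (θ, true) ∂arc) + ∫ θ, f (θ, false) ∂arc) := by
  have e1 : Integrable f (arc.map (fun θ => (θ, true))) :=
    (integrable_map_measure hf.aestronglyMeasurable (meas_pair _).aemeasurable).2 h1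
  have e2 : Integrable f (arc.map (fun θ => (θ, false))) :=
    (integrable_map_measure hf.aestronglyMeasurable (meas_pair _).aemeasurable).2 h2
  rw [tP, integral_smul_measure, integral_add_measure e1 e2,
    integral_map (meas_pair _).aemeasurable hf.aestronglyMeasurable,
    integral_map (meas_pair _).aemeasurable hf.aestronglyMeasurable]
  simp

lemma tZ_measurable (B p : ℝ) : Measurable (tZ B p) := by
  have hc : Measurable (fun ω : ℝ × (ℝ × Bool) => circleMap 0 1 ω.2.1) :=
    (continuous_circleMap 0 1).measurable.comp (measurable_fst.comp measurable_snd)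
  have hx : Measurable (fun ω : ℝ × (ℝ × Bool) => (ω.1 : ℂ)) :=
    Complex.measurable_ofReal.comp measurable_fst
  have hk : Measurable (fun ω : ℝ × (ℝ × Bool) => (kap B p ω.1 : ℂ)) := by
    refine Complex.measurable_ofReal.comp ?_
    have h0 : Measurable (fun x : ℝ => kap B p x) := by
      unfold kap
      fun_prop
    exact h0.comp measurable_fst
  have hb : Measurable (fun ω : ℝ × (ℝ × Bool) => (if ω.2.2 then (1 : ℂ) else -1)) := by
    have h0 : Measurable (fun b : Bool => (if b then (1 : ℂ) else -1)) := measurable_of_finite _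
    exact h0.comp (measurable_snd.comp measurable_snd)
  have hd : Measurable (fun ω : ℝ × (ℝ × Bool) => tdisc B p ω.1 (circleMap 0 1 ω.2.1)) := by
    unfold tdisc
    exact ((((measurable_const.mul hx).add (hc.mul hk)).pow_const 2).sub
      (measurable_const.mul ((hx.pow_const 2).add ((hc.mul hk).mul measurable_const))))
  have hs : Measurable (fun ω : ℝ × (ℝ × Bool) =>
      (tdisc B p ω.1 (circleMap 0 1 ω.2.1)) ^ (2⁻¹ : ℂ)) := hd.pow_const _
  unfold tZ troot
  exact (((measurable_const.mul hx).add (hc.mul hk)).add (hb.mul hs)).div_const 2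

lemma tlog_measurable (B p x : ℝ) (y : ℂ) :
    Measurable (fun ω : ℝ × Bool => log ‖tZ B p (x, ω) - y‖) :=
  (((tZ_measurable B p).comp measurable_prodMk_left).sub_const y).norm.log

lemma norm_circle (θ : ℝ) : ‖circleMap 0 1 θ‖ = 1 := by simp

lemma tlog_le {B p x : ℝ} (b : Bool) (θ : ℝ) (y : ℂ) :
    log ‖troot B p x b (circleMap 0 1 θ) - y‖
      ≤ log (2 * (2 * |x| + kap B p x + 2 * |p| + 1) + ‖y‖ + 1) := by
  have hκ : 0 ≤ kap B p x := mul_nonneg (abs_nonneg _) (exp_pos _).le
  have h1 := troot_norm_le (B := B) (p := p) (x := x) b (norm_circle θ)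
  have h2 := norm_sub_le (troot B p x b (circleMap 0 1 θ)) y
  have a1 := abs_nonneg x
  have a2 := abs_nonneg p
  have a3 := norm_nonneg y
  rcases (norm_nonneg (troot B p x b (circleMap 0 1 θ) - y)).eq_or_lt with h | h
  · rw [← h, log_zero]
    apply log_nonneg
    linarith
  · apply log_le_log h
    linarith

lemma abs_le_of_sum {u v C : ℝ} (h1 : u ≤ C) (h2 : v ≤ C) : |u| ≤ |u + v| + C ∧ |v| ≤ |u + v| + C := by
  have h3 := le_abs_self (u + v)
  have h4 := neg_abs_le (u + v)
  have h5 := abs_nonneg (u + v)
  constructor
  · rw [abs_le]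
    constructor <;> linarith
  · rw [abs_le]
    constructor <;> linarith

lemma tlog_meas (B p x : ℝ) (b : Bool) (y : ℂ) :
    Measurable (fun θ : ℝ => log ‖troot B p x b (circleMap 0 1 θ) - y‖) := by
  have h := (tlog_measurable B p x y).comp (meas_pair b)
  have e : ((fun ω : ℝ × Bool => log ‖tZ B p (x, ω) - y‖) ∘ fun θ => (θ, b))
      = fun θ : ℝ => log ‖troot B p x b (circleMap 0 1 θ) - y‖ := by
    funext θ
    simp only [Function.comp_apply, tZ]
  rwa [e] at h

lemma integrable_of_sum {μ : Measure ℝ} [IsFiniteMeasure μ] {u v : ℝ → ℝ} {C : ℝ}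
    (hu : Measurable u) (hv : Measurable v) (h : Integrable (fun θ => u θ + v θ) μ)
    (h1 : ∀ θ, u θ ≤ C) (h2 : ∀ θ, v θ ≤ C) : Integrable u μ ∧ Integrable v μ := by
  have hg : Integrable (fun θ => |u θ + v θ| + C) μ := h.abs.add (integrable_const _)
  refine ⟨hg.mono' hu.aestronglyMeasurable (Filter.Eventually.of_forall fun θ => ?_),
    hg.mono' hv.aestronglyMeasurable (Filter.Eventually.of_forall fun θ => ?_)⟩
  · rw [norm_eq_abs]
    exact (abs_le_of_sum (h1 θ) (h2 θ)).1
  · rw [norm_eq_abs]
    exact (abs_le_of_sum (h1 θ) (h2 θ)).2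

lemma tlog_integrable {B p x : ℝ} (hxp : x ≠ p) (b : Bool) (y : ℂ) :
    Integrable (fun θ => log ‖troot B p x b (circleMap 0 1 θ) - y‖) arc := by
  have hsum : Integrable (fun θ => log ‖troot B p x true (circleMap 0 1 θ) - y‖
      + log ‖troot B p x false (circleMap 0 1 θ) - y‖) arc :=
    integrable_arc (f := fun c => log ‖troot B p x true c - y‖ + log ‖troot B p x false c - y‖)
      (tent_sum_circleIntegrable hxp y)
  have hprob := arc_prob
  have h := integrable_of_sum (tlog_meas B p x true y) (tlog_meas B p x false y) hsum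
    (fun θ => tlog_le true θ y) (fun θ => tlog_le false θ y)
  cases b
  · exact h.2
  · exact h.1

/-- **The tent family.** -/
theorem tent_fam {B p a b : ℝ} (hab : ∀ x ∈ Icc a b, x ≠ p) :
    Fam tP a b (tZ B p) (tphi B p) where
  prob := by
    constructor
    have := arc_prob
    rw [tP_apply MeasurableSet.univ]
    simp [ENNReal.inv_mul_cancel, one_add_one_eq_two]
  meas := tZ_measurable B p
  bdd := by
    refine ⟨2 * (2 * (|a| + |b|) + ((|a| + |b|) + |p|) * exp B + 2 * |p| + 1), ?_⟩
    intro x hx ω
    refine (troot_norm_le ω.2 (norm_circle ω.1)).trans ?_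
    have h1 : |x| ≤ |a| + |b| := by
      rw [abs_le]
      constructor
      · have := neg_abs_le a
        have := abs_nonneg b
        linarith [hx.1]
      · have := le_abs_self b
        have := abs_nonneg a
        linarith [hx.2]
    have h2 : |x - p| ≤ |x| + |p| := abs_sub _ _
    have h3 : kap B p x ≤ ((|a| + |b|) + |p|) * exp B := by
      unfold kap
      exact mul_le_mul_of_nonneg_right (by linarith) (exp_pos _).le
    show 2 * (2 * |x| + kap B p x + 2 * |p| + 1) ≤ _
    linarith
  ne := by
    intro x hx y
    have hxp := hab x hx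
    have hmeas : MeasurableSet {ω : ℝ × Bool | tZ B p (x, ω) = y} :=
      ((tZ_measurable B p).comp measurable_prodMk_left) (measurableSet_singleton y)
    rw [tP_apply hmeas]
    have hbad : ∀ c : Bool, arc {θ | (θ, c) ∈ {ω : ℝ × Bool | tZ B p (x, ω) = y}} = 0 := by
      intro c
      refine measure_mono_null ?_ (arc_null (tent_bad_finite (B := B) hxp y).countable)
      intro θ hθ
      have : troot B p x c (circleMap 0 1 θ) = y := hθ
      cases c
      · exact Or.inr this
      · exact Or.inl this
    rw [hbad true, hbad false]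
    simp
  int := by
    intro x hx y
    exact tP_integrable (tlog_measurable B p x y) (tlog_integrable (hab x hx) true y)
      (tlog_integrable (hab x hx) false y)
  pot := by
    intro x hx y hy
    have hxp := hab x hx
    rw [tP_integral (tlog_measurable B p x y) (tlog_integrable hxp true y)
      (tlog_integrable hxp false y)]
    have h1 : (∫ θ, log ‖tZ B p (x, (θ, true)) - y‖ ∂arc) + ∫ θ, log ‖tZ B p (x, (θ, false)) - y‖ ∂arc
        = ∫ θ, (log ‖troot B p x true (circleMap 0 1 θ) - y‖
          + log ‖troot B p x false (circleMap 0 1 θ) - y‖) ∂arc :=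
      (integral_add (tlog_integrable hxp true y) (tlog_integrable hxp false y)).symm
    rw [h1, integral_arc (fun c => log ‖troot B p x true c - y‖ + log ‖troot B p x false c - y‖),
      tent_avg hxp hy]
    ring
  nonneg := fun x y => tphi_nonneg B p x y

/-! ### The average over the pole -/

/-- integral of the logarithm over an interval of length `l` -/
lemma integral_log_ge {l : ℝ} (hl : 0 < l) (a u : ℝ) :
    l * (log (l / 2) - 1) ≤ ∫ x in a..(a + l), log (x - u) := by
  have h1 : ∫ x in a..(a + l), log (x - u) = ∫ x in (a - u)..(a + l - u), log x :=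
    intervalIntegral.integral_comp_sub_right (fun x => log x) u
  rw [h1, integral_log]
  set s := a - u with hs
  have e : a + l - u = s + l := by rw [hs]; ring
  rw [e]
  have hl2 : log (l / 2) ≤ log l := log_le_log (by linarith) (by linarith)
  have hmain : l * log (l / 2) ≤ (s + l) * log (s + l) - s * log s := by
    rcases le_or_gt 0 s with h0 | h0
    · -- both nonnegative
      rcases h0.eq_or_lt with h | h
      · rw [← h]
        simp only [zero_add, zero_mul, sub_zero]
        exact mul_le_mul_of_nonneg_left hl2 hl.le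
      · have g1 : log s ≤ log (s + l) := log_le_log h (by linarith)
        have g2 : log l ≤ log (s + l) := log_le_log hl (by linarith)
        nlinarith
    · rcases le_or_gt (s + l) 0 with h2 | h2
      · -- both nonpositive
        rcases h2.eq_or_lt with h | h
        · rw [h]
          have hs' : s = -l := by linarith
          rw [hs', log_neg_eq_log]
          have := mul_le_mul_of_nonneg_left hl2 hl.le
          linarith
        · have g1 : log (-(s + l)) ≤ log (-s) := log_le_log (by linarith) (by linarith)
          have g2 : log l ≤ log (-s) := log_le_log hl (by linarith)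
          rw [log_neg_eq_log, log_neg_eq_log] at g1
          rw [log_neg_eq_log] at g2
          nlinarith
      · -- opposite signs
        have m1 : -s ∈ Ici (0 : ℝ) := by
          rw [Set.mem_Ici]
          linarith
        have m2 : s + l ∈ Ici (0 : ℝ) := by
          rw [Set.mem_Ici]
          linarith
        have hc := Real.convexOn_mul_log.2 m1 m2 (show (0 : ℝ) ≤ 1 / 2 by norm_num)
          (show (0 : ℝ) ≤ 1 / 2 by norm_num) (by norm_num)
        simp only [smul_eq_mul] at hc
        have e1 : 1 / 2 * -s + 1 / 2 * (s + l) = l / 2 := by ring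
        rw [e1, log_neg_eq_log] at hc
        linarith
  linarith

lemma norm_ge_re (x : ℝ) (y : ℂ) : |x - y.re| ≤ ‖(x : ℂ) - y‖ := by
  have := Complex.abs_re_le_norm ((x : ℂ) - y)
  simpa using this

lemma logn_intervalIntegrable (y : ℂ) (a b : ℝ) :
    IntervalIntegrable (fun x : ℝ => log ‖(x : ℂ) - y‖) volume a b := by
  by_cases hy : y.im = 0
  · have e : (fun x : ℝ => log ‖(x : ℂ) - y‖) = fun x => log (x - y.re) := by
      funext x
      have h1 : (x : ℂ) - y = ((x - y.re : ℝ) : ℂ) := by
        apply Complex.ext
        · simp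
        · simp [hy]
      rw [h1, Complex.norm_real, norm_eq_abs, log_abs]
    rw [e]
    have h2 := (intervalIntegral.intervalIntegrable_log' (a := a - y.re) (b := b - y.re)).comp_sub_right
      y.re
    simpa using h2
  · apply Continuous.intervalIntegrable
    have h0 : ∀ x : ℝ, ‖(x : ℂ) - y‖ ≠ 0 := by
      intro x hx
      rw [norm_eq_zero, sub_eq_zero] at hx
      rw [← hx] at hy
      simp at hy
    fun_prop (disch := assumption)

lemma integral_logn_ge {l : ℝ} (hl : 0 < l) (a : ℝ) (y : ℂ) :
    l * (log (l / 2) - 1) ≤ ∫ x in a..(a + l), log ‖(x : ℂ) - y‖ := by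
  refine (integral_log_ge hl a y.re).trans ?_
  have i1 : IntervalIntegrable (fun x : ℝ => log (x - y.re)) volume a (a + l) := by
    have := logn_intervalIntegrable (y.re : ℂ) a (a + l)
    refine this.congr ?_
    intro x _
    show log ‖(x : ℂ) - (y.re : ℂ)‖ = log (x - y.re)
    rw [← Complex.ofReal_sub, Complex.norm_real, norm_eq_abs, log_abs]
  apply intervalIntegral.integral_mono_ae (by linarith) i1 (logn_intervalIntegrable y a (a + l))
  have hne : ∀ᵐ x : ℝ, x ≠ y.re := by
    rw [ae_iff]
    simp
  filter_upwards [hne] with x hx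
  rw [← log_abs]
  exact log_le_log (abs_pos.2 (sub_ne_zero.2 hx)) (norm_ge_re x y)

/-- the average of the tent over the pole -/
theorem tphi_avg {B p l a : ℝ} (hl : 0 < l) (hB : 2 ≤ B) (ha : a = p + l ∨ a = p - 2 * l) (y : ℂ) :
    ∫ x in a..(a + l), tphi B p x y ≤ l * (B / 2 + 3) := by
  have hρ : ∀ x ∈ Icc a (a + l), l ≤ |x - p| ∧ |x - p| ≤ 2 * l := by
    intro x hx
    rcases ha with h | h
    · rw [h] at hx
      rw [abs_of_nonneg (by linarith [hx.1])]
      constructor <;> linarith [hx.1, hx.2]
    · rw [h] at hx
      rw [abs_of_nonpos (by linarith [hx.2])]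
      constructor <;> linarith [hx.1, hx.2]
  have hlog2 : log 2 < 0.6931471808 := log_two_lt_d9
  have hlog2' : 0.6931471803 < log 2 := log_two_gt_d9
  have hal : a ≤ a + l := by linarith
  rcases le_or_gt ‖y - p‖ (4 * l) with ht | ht
  · -- near
    set K : ℝ := (B + log 8 + 2 * log l) / 2 with hK
    have hpt : ∀ x ∈ Ioc a (a + l), (x : ℂ) ≠ y → tphi B p x y ≤ K - log ‖(x : ℂ) - y‖ := by
      intro x hx hxy
      obtain ⟨h1, h2⟩ := hρ x ⟨hx.1.le, hx.2⟩
      have hxp : x ≠ p := by
        intro h
        rw [h, sub_self, abs_zero] at h1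
        linarith
      have hw : 0 < ‖y - x‖ := norm_pos_iff.2 (sub_ne_zero.2 (Ne.symm hxy))
      have hwle : ‖y - x‖ ≤ 6 * l := by
        have h3 : y - x = (y - p) - ((x - p : ℝ) : ℂ) := by push_cast; ring
        rw [h3]
        refine (norm_sub_le _ _).trans ?_
        rw [Complex.norm_real, norm_eq_abs]
        linarith
      have hκ := kap_pos (B := B) hxp
      have hlw : log ‖y - x‖ ≤ log 6 + log l := by
        rw [← log_mul (by norm_num) hl.ne']
        exact log_le_log hw hwle
      have hlog6 : 2 * log 6 ≤ B + log 8 := by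
        have e6 : (6 : ℝ) ^ 2 = 8 * 4.5 := by norm_num
        have e7 : 2 * log 6 = log 8 + log 4.5 := by
          have : log ((6 : ℝ) ^ 2) = log 8 + log 4.5 := by
            rw [e6, log_mul (by norm_num) (by norm_num)]
          rw [log_pow] at this
          push_cast at this
          exact this
        have e8 : log (4.5 : ℝ) ≤ 2 := by
          have : (4.5 : ℝ) ≤ exp 1 ^ 2 := by
            have := exp_one_gt_d9
            nlinarith
          calc log (4.5 : ℝ) ≤ log (exp 1 ^ 2) := log_le_log (by norm_num) this
            _ = 2 := by rw [log_pow, log_exp]; norm_num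
        linarith
      have e9 : ‖(x : ℂ) - y‖ = ‖y - x‖ := norm_sub_rev _ _
      rw [e9, tphi]
      have h5 : log⁺ (kap B p x * ‖y - p‖ / ‖y - x‖ ^ 2) ≤ 2 * (K - log ‖y - x‖) := by
        rw [posLog, max_le_iff]
        constructor
        · rw [hK]; linarith
        · rcases (norm_nonneg (y - p)).eq_or_lt with h | h
          · rw [← h, mul_zero, zero_div, log_zero, hK]
            linarith
          · rw [log_div (by positivity) (by positivity), log_mul hκ.ne' h.ne', kap,
              log_mul (by rw [abs_ne_zero]; exact sub_ne_zero.2 hxp) (exp_pos _).ne', log_exp,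
              log_pow]
            have h6 : log |x - p| ≤ log (2 * l) := log_le_log (by linarith) h2
            have h7 : log ‖y - p‖ ≤ log (4 * l) := log_le_log h ht
            rw [log_mul two_ne_zero hl.ne'] at h6
            rw [log_mul (by norm_num) hl.ne'] at h7
            have h8 : log 8 = log 2 + log 4 := by
              rw [← log_mul (by norm_num) (by norm_num)]
              norm_num
            rw [hK]
            push_cast
            linarith
      linarith
    have hg : IntervalIntegrable (fun x : ℝ => K - log ‖(x : ℂ) - y‖) volume a (a + l) :=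
      intervalIntegrable_const.sub (logn_intervalIntegrable y a (a + l))
    have h1 : ∫ x in a..(a + l), tphi B p x y ≤ ∫ x in a..(a + l), (K - log ‖(x : ℂ) - y‖) := by
      rw [intervalIntegral.integral_of_le hal, intervalIntegral.integral_of_le hal]
      refine integral_mono_of_nonneg (Filter.Eventually.of_forall fun x => tphi_nonneg B p x y)
        ((intervalIntegrable_iff_integrableOn_Ioc_of_le hal).1 hg) ?_
      have hne : ∀ᵐ x : ℝ ∂(volume.restrict (Ioc a (a + l))), (x : ℂ) ≠ y := by
        refine ae_restrict_of_ae ?_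
        rw [ae_iff]
        refine measure_mono_null (t := {y.re}) ?_ (by simp)
        intro x hx
        simp only [ne_eq, not_not, Set.mem_ofPred_eq] at hx
        rw [← hx]
        simp
      filter_upwards [hne, ae_restrict_mem measurableSet_Ioc] with x hx hmem
      exact hpt x hmem hx
    refine h1.trans ?_
    rw [intervalIntegral.integral_sub intervalIntegrable_const (logn_intervalIntegrable y a (a + l)),
      intervalIntegral.integral_const]
    have h2 := integral_logn_ge hl a y
    rw [log_div hl.ne' two_ne_zero] at h2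
    have h8 : log 8 = 3 * log 2 := by
      have : (8 : ℝ) = 2 ^ 3 := by norm_num
      rw [this, log_pow]
      norm_num
    have h3 : (a + l - a) • K = l * K := by rw [smul_eq_mul]; ring
    rw [h3, hK, h8]
    nlinarith
  · -- far
    have hpt : ∀ x ∈ Ioc a (a + l), tphi B p x y ≤ B / 2 + 3 := by
      intro x hx
      obtain ⟨h1, h2⟩ := hρ x ⟨hx.1.le, hx.2⟩
      have hxp : x ≠ p := by
        intro h
        rw [h, sub_self, abs_zero] at h1
        linarith
      have hκ := kap_pos (B := B) hxp
      have hwge : ‖y - p‖ / 2 ≤ ‖y - x‖ := by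
        have h3 : y - x = (y - p) - ((x - p : ℝ) : ℂ) := by push_cast; ring
        have h4 := norm_sub_norm_le (y - p) ((x - p : ℝ) : ℂ)
        rw [← h3, Complex.norm_real, norm_eq_abs] at h4
        linarith
      have htp : 0 < ‖y - p‖ := by linarith
      have hw : 0 < ‖y - x‖ := by linarith
      rw [tphi]
      have h5 : log⁺ (kap B p x * ‖y - p‖ / ‖y - x‖ ^ 2) ≤ B + log 2 := by
        rw [posLog, max_le_iff]
        constructor
        · linarith
        · have h6 : kap B p x * ‖y - p‖ / ‖y - x‖ ^ 2 ≤ exp B * 2 := by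
            rw [div_le_iff₀ (by positivity), kap]
            have h7 : (‖y - p‖ / 2) ^ 2 ≤ ‖y - x‖ ^ 2 := pow_le_pow_left₀ (by linarith) hwge 2
            have h8 : |x - p| * ‖y - p‖ ≤ 2 * (‖y - p‖ / 2) ^ 2 := by nlinarith
            have h9 : |x - p| * ‖y - p‖ ≤ 2 * ‖y - x‖ ^ 2 := h8.trans (by linarith)
            calc |x - p| * exp B * ‖y - p‖ = exp B * (|x - p| * ‖y - p‖) := by ring
              _ ≤ exp B * (2 * ‖y - x‖ ^ 2) := mul_le_mul_of_nonneg_left h9 (exp_pos _).le
              _ = exp B * 2 * ‖y - x‖ ^ 2 := by ring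
          refine (log_le_log (by positivity) h6).trans ?_
          rw [log_mul (exp_pos _).ne' two_ne_zero, log_exp]
      linarith
    have h1 : ∫ x in a..(a + l), tphi B p x y ≤ ∫ x in a..(a + l), (B / 2 + 3) := by
      rw [intervalIntegral.integral_of_le hal, intervalIntegral.integral_of_le hal]
      refine integral_mono_of_nonneg (Filter.Eventually.of_forall fun x => tphi_nonneg B p x y)
        ((intervalIntegrable_iff_integrableOn_Ioc_of_le hal).1 intervalIntegrable_const) ?_
      filter_upwards [ae_restrict_mem measurableSet_Ioc] with x hmem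
      exact hpt x hmem
    refine h1.trans ?_
    rw [intervalIntegral.integral_const, smul_eq_mul]
    have : a + l - a = l := by ring
    rw [this]

end Pool.Agent.W_be22fd_h33
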