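import Pool.Agent.W_be22fd_h77.Phase

/-!
# The algebraic tent

For real `x ≠ p`, `ρ = |x - p|`, `κ = ρ e^B`: the two roots of `(z - x)^2 = c κ (z - p)`, `|c| = 1`.
The potential of their law is `log ‖x - y‖ + (1/2) log⁺ (κ ‖y - p‖ / ‖y - x‖^2)`.
-/

open Real MeasureTheory Set

namespace Pool.Agent.W_be22fd_h33

open Pool.Agent.Be22.Ker

/-- `κ = |x - p| e^B` -/
noncomputable def kap (B p x : ℝ) : ℝ := |x - p| * exp B

lemma kap_pos {B p x : ℝ} (h : x ≠ p) : 0 < kap B p x :=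
  mul_pos (abs_pos.2 (sub_ne_zero.2 h)) (exp_pos _)

/-- discriminant -/
noncomputable def tdisc (B p x : ℝ) (c : ℂ) : ℂ :=
  (2 * x + c * kap B p x) ^ 2 - 4 * (x ^ 2 + c * kap B p x * p)

/-- the two roots -/
noncomputable def troot (B p x : ℝ) (b : Bool) (c : ℂ) : ℂ :=
  (2 * x + c * kap B p x + (if b then 1 else -1) * (tdisc B p x c) ^ (2⁻¹ : ℂ)) / 2

lemma sqrt_sq (z : ℂ) : (z ^ (2⁻¹ : ℂ)) ^ 2 = z := by
  simp

lemma troot_mul (B p x : ℝ) (c y : ℂ) :
    (troot B p x true c - y) * (troot B p x false c - y)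
      = (y - x) ^ 2 + c * (-(kap B p x * (y - p))) := by
  have h := sqrt_sq (tdisc B p x c)
  set s := (tdisc B p x c) ^ (2⁻¹ : ℂ) with hs
  have h1 : troot B p x true c = (2 * x + c * kap B p x + s) / 2 := by
    simp only [troot, if_true, one_mul]
    rw [hs]
  have h2 : troot B p x false c = (2 * x + c * kap B p x - s) / 2 := by
    simp only [troot, Bool.false_eq_true, if_false]
    rw [hs]
    ring
  rw [h1, h2]
  have h3 : ((2 * x + c * kap B p x + s) / 2 - y) * ((2 * x + c * kap B p x - s) / 2 - y)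
      = ((2 * x + c * kap B p x - 2 * y) ^ 2 - s ^ 2) / 4 := by ring
  rw [h3, h, tdisc]
  ring

/-- the potential of the tent -/
noncomputable def tphi (B p x : ℝ) (y : ℂ) : ℝ :=
  (1 / 2) * log⁺ (kap B p x * ‖y - p‖ / ‖y - x‖ ^ 2)

lemma tphi_nonneg (B p x : ℝ) (y : ℂ) : 0 ≤ tphi B p x y := by
  unfold tphi
  have := posLog_nonneg (x := kap B p x * ‖y - p‖ / ‖y - x‖ ^ 2)
  linarith

lemma log_max_eq {B p x : ℝ} (hxp : x ≠ p) {y : ℂ} (hy : y ≠ x) :
    log (max ‖(y - x) ^ 2‖ ‖-((kap B p x : ℂ) * (y - p))‖)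
      = 2 * (log ‖(x : ℂ) - y‖ + tphi B p x y) := by
  have hκ := kap_pos (B := B) hxp
  have h1 : ‖(y - x) ^ 2‖ = ‖y - x‖ ^ 2 := norm_pow _ _
  have h2 : ‖-((kap B p x : ℂ) * (y - p))‖ = kap B p x * ‖y - p‖ := by
    rw [norm_neg, norm_mul, Complex.norm_real, norm_of_nonneg hκ.le]
  have h3 : 0 < ‖y - x‖ := norm_pos_iff.2 (sub_ne_zero.2 hy)
  have h4 : ‖(x : ℂ) - y‖ = ‖y - x‖ := norm_sub_rev _ _
  have h5 : 0 ≤ kap B p x * ‖y - p‖ := mul_nonneg hκ.le (norm_nonneg _)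
  rw [h1, h2, h4, tphi]
  by_cases h : kap B p x * ‖y - p‖ ≤ ‖y - x‖ ^ 2
  · rw [max_eq_left h, log_pow]
    have : log⁺ (kap B p x * ‖y - p‖ / ‖y - x‖ ^ 2) = 0 := by
      rw [posLog_eq_zero_iff, abs_of_nonneg (by positivity)]
      exact div_le_one_of_le₀ h (by positivity)
    rw [this]
    push_cast
    ring
  · rw [not_le] at h
    have h6 : 0 < kap B p x * ‖y - p‖ := lt_of_le_of_lt (by positivity) h
    rw [max_eq_right h.le, posLog_eq_log, log_div h6.ne' (by positivity), log_pow]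
    · push_cast
      ring
    · rw [abs_of_nonneg (by positivity), le_div_iff₀ (by positivity)]
      linarith

lemma tent_ne {B p x : ℝ} (hxp : x ≠ p) (y : ℂ) :
    ((y - x) ^ 2 : ℂ) ≠ 0 ∨ -((kap B p x : ℂ) * (y - p)) ≠ 0 := by
  by_contra hcon
  rw [not_or, not_not, not_not] at hcon
  obtain ⟨h1, h2⟩ := hcon
  have hκ : (kap B p x : ℂ) ≠ 0 := by exact_mod_cast (kap_pos (B := B) hxp).ne'
  have h3 : y = x := sub_eq_zero.1 (pow_eq_zero_iff two_ne_zero |>.1 h1)
  rw [neg_eq_zero, mul_eq_zero] at h2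
  rcases h2 with h2 | h2
  · exact hκ h2
  · have : y = p := sub_eq_zero.1 h2
    rw [h3] at this
    exact hxp (by exact_mod_cast this)

/-- only finitely many phases are bad -/
lemma tent_bad_finite {B p x : ℝ} (hxp : x ≠ p) (y : ℂ) :
    {c : ℂ | troot B p x true c = y ∨ troot B p x false c = y}.Finite := by
  have hne := tent_ne (B := B) hxp y
  refine Set.Finite.subset (Set.finite_singleton ((y - x) ^ 2 / (kap B p x * (y - p)))) ?_
  intro c hc
  have h0 : (y - x) ^ 2 + c * (-(kap B p x * (y - p))) = 0 := by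
    rw [← troot_mul]
    rcases hc with h | h
    · rw [h]; ring
    · rw [h]; ring
  have hκ : (kap B p x : ℂ) * (y - p) ≠ 0 := by
    intro h
    rw [h] at h0
    simp only [neg_zero, mul_zero, add_zero] at h0
    rcases hne with h' | h'
    · exact h' h0
    · exact h' (by rw [h]; simp)
  simp only [Set.mem_singleton_iff]
  rw [eq_div_iff hκ]
  linear_combination -h0

/-- sum of the two logarithms -/
lemma tent_avg {B p x : ℝ} (hxp : x ≠ p) {y : ℂ} (hy : y ≠ x) :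
    circleAverage (fun c => log ‖troot B p x true c - y‖ + log ‖troot B p x false c - y‖) 0 1
      = 2 * (log ‖(x : ℂ) - y‖ + tphi B p x y) := by
  rw [← log_max_eq hxp hy, ← circleAverage_log_add_mul _ _ (tent_ne hxp y)]
  apply circleAverage_congr_finite' one_ne_zero _ (tent_bad_finite hxp y)
  intro c hc
  simp only [Set.mem_ofPred_eq, not_or] at hc
  rw [← troot_mul, norm_mul, log_mul]
  · exact norm_ne_zero_iff.2 (sub_ne_zero.2 hc.1)
  · exact norm_ne_zero_iff.2 (sub_ne_zero.2 hc.2)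

lemma tent_sum_circleIntegrable {B p x : ℝ} (hxp : x ≠ p) (y : ℂ) :
    CircleIntegrable (fun c => log ‖troot B p x true c - y‖ + log ‖troot B p x false c - y‖) 0 1 := by
  have h := circleIntegrable_log_add_mul ((y - x) ^ 2) (-(kap B p x * (y - p)))
  refine h.congr_codiscreteWithin ?_
  filter_upwards [compl_finite_mem_codiscreteWithin (s := Metric.sphere (0:ℂ) |1|)
    (tent_bad_finite (B := B) hxp y)] with c hc
  simp only [Set.mem_compl_iff, Set.mem_ofPred_eq, not_or] at hc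
  rw [← troot_mul, norm_mul, log_mul]
  · exact norm_ne_zero_iff.2 (sub_ne_zero.2 hc.1)
  · exact norm_ne_zero_iff.2 (sub_ne_zero.2 hc.2)

/-- boundedness of the roots -/
lemma troot_norm_le {B p x : ℝ} (b : Bool) {c : ℂ} (hc : ‖c‖ = 1) :
    ‖troot B p x b c‖ ≤ 2 * (2 * |x| + kap B p x + 2 * |p| + 1) := by
  have hκ : 0 ≤ kap B p x := mul_nonneg (abs_nonneg _) (exp_pos _).le
  set M : ℝ := 2 * |x| + kap B p x + 2 * |p| + 1 with hM
  have hM1 : 1 ≤ M := by
    have := abs_nonneg x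
    have := abs_nonneg p
    linarith
  have h1 : ‖(2 * x + c * kap B p x : ℂ)‖ ≤ 2 * |x| + kap B p x := by
    refine (norm_add_le _ _).trans ?_
    rw [norm_mul, norm_mul, hc, Complex.norm_real, Complex.norm_real, norm_of_nonneg hκ]
    simp
  have h2 : ‖(x ^ 2 + c * kap B p x * p : ℂ)‖ ≤ |x| ^ 2 + kap B p x * |p| := by
    refine (norm_add_le _ _).trans ?_
    rw [norm_mul, norm_mul, norm_pow, hc, Complex.norm_real, Complex.norm_real, Complex.norm_real,
      norm_of_nonneg hκ]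
    simp
  have h3 : ‖tdisc B p x c‖ ≤ (2 * M) ^ 2 := by
    rw [tdisc]
    refine (norm_sub_le _ _).trans ?_
    rw [norm_pow, norm_mul]
    have h4 : ‖(4 : ℂ)‖ = 4 := by simp
    rw [h4]
    have h5 := pow_le_pow_left₀ (norm_nonneg _) h1 2
    have a1 := abs_nonneg x
    have a2 := abs_nonneg p
    nlinarith [mul_nonneg a1 hκ, mul_nonneg a2 hκ, mul_nonneg a1 a2]
  have h4 : ‖(tdisc B p x c) ^ (2⁻¹ : ℂ)‖ ≤ 2 * M := by
    have h5 : ‖(tdisc B p x c) ^ (2⁻¹ : ℂ)‖ ^ 2 ≤ (2 * M) ^ 2 := by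
      rw [← norm_pow, sqrt_sq]
      exact h3
    exact le_of_sq_le_sq h5 (by linarith)
  unfold troot
  rw [norm_div]
  have h6 : ‖(2 * x + c * kap B p x + (if b then 1 else -1) * (tdisc B p x c) ^ (2⁻¹ : ℂ) : ℂ)‖
      ≤ M + 2 * M := by
    refine (norm_add_le _ _).trans ?_
    have h7 : ‖((if b then 1 else -1) * (tdisc B p x c) ^ (2⁻¹ : ℂ) : ℂ)‖
        = ‖(tdisc B p x c) ^ (2⁻¹ : ℂ)‖ := by
      rw [norm_mul]
      cases b <;> simp
    rw [h7]
    have a2 := abs_nonneg p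
    linarith
  have h8 : ‖(2 : ℂ)‖ = 2 := by simp
  rw [h8]
  linarith

/-! ### Numeric bounds -/

lemma tphi_lower {B p x : ℝ} (hxp : x ≠ p) {y : ℂ} (hyx : y ≠ x) (hyp : y ≠ p) :
    (1 / 2) * (B - |log (‖y - p‖ / |x - p|)| - 2 * log 2) ≤ tphi B p x y := by
  have hρ : 0 < |x - p| := abs_pos.2 (sub_ne_zero.2 hxp)
  have ht : 0 < ‖y - p‖ := norm_pos_iff.2 (sub_ne_zero.2 hyp)
  have hw : 0 < ‖y - x‖ := norm_pos_iff.2 (sub_ne_zero.2 hyx)
  have hwle : ‖y - x‖ ≤ ‖y - p‖ + |x - p| := by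
    have h1 : y - x = (y - p) - ((x - p : ℝ) : ℂ) := by push_cast; ring
    rw [h1]
    refine (norm_sub_le _ _).trans ?_
    rw [Complex.norm_real, norm_eq_abs]
  unfold tphi
  have hle : B - |log (‖y - p‖ / |x - p|)| - 2 * log 2
      ≤ log⁺ (kap B p x * ‖y - p‖ / ‖y - x‖ ^ 2) := by
    refine le_trans ?_ (le_max_right 0 _)
    have hκ := kap_pos (B := B) hxp
    have e1 : log (kap B p x * ‖y - p‖ / ‖y - x‖ ^ 2)
        = log |x - p| + B + log ‖y - p‖ - 2 * log ‖y - x‖ := by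
      rw [log_div (by positivity) (by positivity), log_mul hκ.ne' ht.ne', kap,
        log_mul hρ.ne' (exp_pos _).ne', log_exp, log_pow]
      push_cast
      ring
    rw [e1, log_div ht.ne' hρ.ne']
    have h2 : log ‖y - x‖ ≤ log (2 * max ‖y - p‖ |x - p|) := by
      apply log_le_log hw
      refine hwle.trans ?_
      have h3 := le_max_left ‖y - p‖ |x - p|
      have h4 := le_max_right ‖y - p‖ |x - p|
      linarith
    rcases le_total ‖y - p‖ |x - p| with h | h
    · rw [max_eq_right h, log_mul two_ne_zero hρ.ne'] at h2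
      have h5 : log ‖y - p‖ ≤ log |x - p| := log_le_log ht h
      rw [abs_of_nonpos (by linarith)]
      linarith
    · rw [max_eq_left h, log_mul two_ne_zero ht.ne'] at h2
      have h5 : log |x - p| ≤ log ‖y - p‖ := log_le_log hρ h
      rw [abs_of_nonneg (by linarith)]
      linarith
  linarith

/-- the tent vanishes off the annulus -/
lemma tphi_zero {B p x : ℝ} (hxp : x ≠ p) {y : ℂ}
    (h : ‖y - p‖ ≤ |x - p| / (exp B + 2) ∨ |x - p| * (exp B + 2) ≤ ‖y - p‖) :
    tphi B p x y = 0 := by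
  have hρ : 0 < |x - p| := abs_pos.2 (sub_ne_zero.2 hxp)
  have ht : 0 ≤ ‖y - p‖ := norm_nonneg _
  have hE : 0 < exp B := exp_pos B
  have hwge : abs (‖y - p‖ - |x - p|) ≤ ‖y - x‖ := by
    have h1 : y - x = (y - p) - ((x - p : ℝ) : ℂ) := by push_cast; ring
    rw [h1]
    have := abs_norm_sub_norm_le (y - p) ((x - p : ℝ) : ℂ)
    rwa [Complex.norm_real, norm_eq_abs] at this
  have hq : kap B p x * ‖y - p‖ ≤ ‖y - x‖ ^ 2 := by
    have h1 : (‖y - p‖ - |x - p|) ^ 2 ≤ ‖y - x‖ ^ 2 := by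
      rw [← sq_abs (‖y - p‖ - |x - p|)]
      exact pow_le_pow_left₀ (abs_nonneg _) hwge 2
    refine le_trans ?_ h1
    rw [kap]
    set t := ‖y - p‖
    set r := |x - p|
    set E := exp B
    rcases h with h | h
    · rw [le_div_iff₀ (by positivity)] at h
      nlinarith [mul_nonneg ht hρ.le]
    · nlinarith [mul_nonneg ht hρ.le]
  unfold tphi
  have : log⁺ (kap B p x * ‖y - p‖ / ‖y - x‖ ^ 2) = 0 := by
    rw [posLog_eq_zero_iff, abs_of_nonneg (by have := (kap_pos (B := B) hxp); positivity)]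
    by_cases h0 : ‖y - x‖ = 0
    · rw [h0]; simp
    · exact div_le_one_of_le₀ hq (by positivity)
  rw [this, mul_zero]

end Pool.Agent.W_be22fd_h33
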